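import Mathlib

/-! The class of the languages of `FC[REG]`-conjunctive queries is closed under union, so it
coincides with the class of the languages of unions of `FC[REG]`-conjunctive queries.

The idea: the conditions `|x| ≤ 1`, `|x|` is even, `x` is empty or `|x|` is odd are regular. With
them one can force that of two factors `W₁`, `W₂` of the universe `w` one is `w` and the other one
is empty, and that a factor is nonempty unless `w` is empty. -/

set_option linter.unusedSectionVars false

namespace Pool.Agent.Results.MP_c07d1e_lc.UnionClosed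

open RegularExpression

/-- A conjunctive query (conjunction of word equations `x ≐ α` and of regular constraints
`y ∈ γ`) with terminals in `A` and variables in `V`. -/
structure CQ (A V : Type) where
  /-- the equations `x ≐ α` -/
  eqs : List (V × List (A ⊕ V))
  /-- the regular constraints `y ∈ γ` -/
  regs : List (V × RegularExpression A)

/-- The extension of a substitution to a morphism that is the identity on terminals. -/
def ext {A V : Type} (σ : V → List A) (α : List (A ⊕ V)) : List A :=
  α.flatMap (Sum.elim (fun a => [a]) σ)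

/-- `σ` is `w`-safe: all values are factors of `σ w`. -/
def Safe {A V : Type} (w : V) (σ : V → List A) : Prop := ∀ x, σ x <:+: σ w

/-- `σ` satisfies all the conditions of the query. -/
def CQ.Sat {A V : Type} (φ : CQ A V) (σ : V → List A) : Prop :=
  (∀ e ∈ φ.eqs, σ e.1 = ext σ e.2) ∧ ∀ r ∈ φ.regs, σ r.1 ∈ r.2.matches'

/-- The language of a query. The variables are the natural numbers, the universe variable
is `0`. -/
def CQ.lang {A : Type} (φ : CQ A ℕ) : Set (List A) :=
  {u | ∃ σ : ℕ → List A, Safe 0 σ ∧ φ.Sat σ ∧ σ 0 = u}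

/-- The language of the disjunction of a finite list of queries. -/
def ucqLang {A : Type} (Φ : List (CQ A ℕ)) : Set (List A) := {u | ∃ φ ∈ Φ, u ∈ φ.lang}

section basics

variable {A V W U : Type}

/-- Renaming of variables. -/
def CQ.map (f : V → W) (φ : CQ A V) : CQ A W :=
  ⟨φ.eqs.map (fun e => (f e.1, e.2.map (Sum.map id f))), φ.regs.map (fun r => (f r.1, r.2))⟩

/-- Conjunction. -/
def CQ.conj (φ ψ : CQ A V) : CQ A V := ⟨φ.eqs ++ ψ.eqs, φ.regs ++ ψ.regs⟩

theorem ext_map (f : V → W) (σ : W → List A) (α : List (A ⊕ V)) :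
    ext σ (α.map (Sum.map id f)) = ext (σ ∘ f) α := by
  unfold ext
  rw [List.flatMap_map]
  congr 1
  funext x
  rcases x with a | v <;> rfl

theorem sat_map (f : V → W) (φ : CQ A V) (σ : W → List A) :
    (φ.map f).Sat σ ↔ φ.Sat (σ ∘ f) := by
  unfold CQ.Sat CQ.map
  simp only [List.mem_map, forall_exists_index, and_imp, forall_apply_eq_imp_iff₂, ext_map,
    Function.comp_apply]

theorem sat_conj (φ ψ : CQ A V) (σ : V → List A) :
    (φ.conj ψ).Sat σ ↔ φ.Sat σ ∧ ψ.Sat σ := by
  unfold CQ.Sat CQ.conj
  simp only [List.mem_append, or_imp, forall_and]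
  tauto

/-- The relation `R` on assignments of `V` is definable by a query with existentially quantified
factors of `w`. -/
def DefRel (w : V) (R : (V → List A) → Prop) : Prop :=
  ∃ (U : Type) (_ : Countable U) (φ : CQ A (V ⊕ U)), ∀ σ : V → List A, Safe w σ →
    (R σ ↔ ∃ τ : U → List A, (∀ u, τ u <:+: σ w) ∧ φ.Sat (Sum.elim σ τ))

theorem DefRel.congr {w : V} {R R' : (V → List A) → Prop} (h : DefRel w R)
    (h' : ∀ σ, Safe w σ → (R σ ↔ R' σ)) : DefRel w R' := by
  obtain ⟨U, hU, φ, hφ⟩ := h
  exact ⟨U, hU, φ, fun σ hσ => by rw [← h' σ hσ]; exact hφ σ hσ⟩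

theorem DefRel.sat (w : V) (φ : CQ A V) : DefRel w (fun σ => φ.Sat σ) := by
  refine ⟨Empty, inferInstance, φ.map Sum.inl, fun σ _ => ?_⟩
  constructor
  · intro h
    refine ⟨fun u => u.elim, fun u => u.elim, ?_⟩
    rw [sat_map]
    exact h
  · rintro ⟨τ, -, h⟩
    rw [sat_map] at h
    exact h

theorem DefRel.true (w : V) : DefRel (A := A) w (fun _ => True) :=
  (DefRel.sat w ⟨[], []⟩).congr fun σ _ => by simp [CQ.Sat]

theorem DefRel.and {w : V} {R R' : (V → List A) → Prop} (h : DefRel w R) (h' : DefRel w R') :
    DefRel w (fun σ => R σ ∧ R' σ) := by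
  obtain ⟨U, hU, φ, hφ⟩ := h
  obtain ⟨U', hU', φ', hφ'⟩ := h'
  refine ⟨U ⊕ U', inferInstance, (φ.map (Sum.map id Sum.inl)).conj (φ'.map (Sum.map id Sum.inr)),
    fun σ hσ => ?_⟩
  show (R σ ∧ R' σ) ↔ _
  rw [hφ σ hσ, hφ' σ hσ]
  constructor
  · rintro ⟨⟨τ, h1, h2⟩, ⟨τ', h1', h2'⟩⟩
    refine ⟨Sum.elim τ τ', ?_, ?_⟩
    · rintro (u | u)
      · exact h1 u
      · exact h1' u
    · rw [sat_conj, sat_map, sat_map]
      refine ⟨?_, ?_⟩
      · convert h2 using 1
        funext x
        rcases x with x | x <;> rfl
      · convert h2' using 1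
        funext x
        rcases x with x | x <;> rfl
  · rintro ⟨τ, h1, h2⟩
    rw [sat_conj, sat_map, sat_map] at h2
    refine ⟨⟨τ ∘ Sum.inl, fun u => h1 _, ?_⟩, ⟨τ ∘ Sum.inr, fun u => h1 _, ?_⟩⟩
    · convert h2.1 using 1
      funext x
      rcases x with x | x <;> rfl
    · convert h2.2 using 1
      funext x
      rcases x with x | x <;> rfl

theorem DefRel.ex {w : V} {U₀ : Type} [Countable U₀] {R : (V ⊕ U₀ → List A) → Prop}
    (h : DefRel (Sum.inl w) R) :
    DefRel w (fun σ => ∃ τ : U₀ → List A, (∀ u, τ u <:+: σ w) ∧ R (Sum.elim σ τ)) := by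
  obtain ⟨U, hU, φ, hφ⟩ := h
  have hs : ∀ (σ : V → List A) (τ : U₀ → List A), Safe w σ → (∀ u, τ u <:+: σ w) →
      Safe (Sum.inl w) (Sum.elim σ τ) := by
    intro σ τ hσ hτ x
    rcases x with x | x
    · exact hσ x
    · exact hτ x
  refine ⟨U₀ ⊕ U, inferInstance, φ.map (Equiv.sumAssoc V U₀ U), fun σ hσ => ?_⟩
  constructor
  · rintro ⟨τ, hτ, hR⟩
    obtain ⟨τ', h1, h2⟩ := (hφ _ (hs σ τ hσ hτ)).1 hR
    refine ⟨Sum.elim τ τ', ?_, ?_⟩
    · rintro (u | u)
      · exact hτ u
      · exact h1 u
    · rw [sat_map]
      convert h2 using 1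
      funext x
      rcases x with (x | x) | x <;> rfl
  · rintro ⟨τ, hτ, hS⟩
    rw [sat_map] at hS
    refine ⟨τ ∘ Sum.inl, fun u => hτ _, (hφ _ (hs σ _ hσ fun u => hτ _)).2
      ⟨τ ∘ Sum.inr, fun u => hτ _, ?_⟩⟩
    convert hS using 1
    funext x
    rcases x with (x | x) | x <;> rfl

theorem DefRel.imp {w : V} (p : Prop) {R : (V → List A) → Prop} (h : DefRel w R) :
    DefRel w (fun σ => p → R σ) := by
  by_cases hp : p
  · exact h.congr fun σ _ => by simp [hp]
  · exact (DefRel.true w).congr fun σ _ => by simp [hp]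

theorem DefRel.list {w : V} {ι : Type} (l : List ι) {R : ι → (V → List A) → Prop}
    (h : ∀ i ∈ l, DefRel w (R i)) : DefRel w (fun σ => ∀ i ∈ l, R i σ) := by
  induction l with
  | nil => exact (DefRel.true w).congr fun σ _ => by simp
  | cons i l ih =>
    refine ((h i (by simp)).and (ih fun j hj => h j (by simp [hj]))).congr fun σ _ => ?_
    simp

end basics

/-! ### Regular expressions for the length conditions -/

section regular

variable {A : Type} [Fintype A]

/-- All words of length one. -/
noncomputable def anyR (A : Type) [Fintype A] : RegularExpression A :=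
  ((Finset.univ : Finset A).toList.map char).foldr (· + ·) 0

theorem mem_anyR (x : List A) : x ∈ (anyR A).matches' ↔ x.length = 1 := by
  have h : ∀ l : List A, x ∈ ((l.map char).foldr (· + ·) (0 : RegularExpression A)).matches' ↔
      ∃ a ∈ l, x = [a] := by
    intro l
    induction l with
    | nil => simp [matches'_zero, Language.notMem_zero]
    | cons a l ih =>
      rw [List.map_cons, List.foldr_cons, matches'_add, Language.mem_add, ih, matches'_char]
      simp only [List.mem_cons, exists_eq_or_imp]
      rfl
  rw [anyR, h, List.length_eq_one_iff]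
  simp

/-- All words of length at most one. -/
noncomputable def optR (A : Type) [Fintype A] : RegularExpression A := 1 + anyR A

theorem mem_optR (x : List A) : x ∈ (optR A).matches' ↔ x.length ≤ 1 := by
  rw [optR, matches'_add, Language.mem_add, mem_anyR, matches'_epsilon, Language.mem_one]
  constructor
  · rintro (rfl | h)
    · simp
    · omega
  · intro h
    rcases Nat.eq_zero_or_pos x.length with h0 | h0
    · left
      exact List.length_eq_zero_iff.1 h0
    · right
      omega

/-- All words of even length. -/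
noncomputable def evenR (A : Type) [Fintype A] : RegularExpression A := star (anyR A * anyR A)

theorem mem_two (x : List A) : x ∈ (anyR A * anyR A).matches' ↔ x.length = 2 := by
  rw [matches'_mul, Language.mem_mul]
  simp only [mem_anyR]
  constructor
  · rintro ⟨a, ha, b, hb, rfl⟩
    rw [List.length_append, ha, hb]
  · intro h
    obtain ⟨a, b, rfl⟩ := List.length_eq_two.1 h
    exact ⟨[a], rfl, [b], rfl, rfl⟩

theorem mem_evenR (x : List A) : x ∈ (evenR A).matches' ↔ Even x.length := by
  rw [evenR, matches'_star, Language.mem_kstar]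
  constructor
  · rintro ⟨L, rfl, hL⟩
    induction L with
    | nil => simp
    | cons y L ih =>
      rw [List.flatten_cons, List.length_append, (mem_two y).1 (hL y (by simp))]
      exact even_two.add (ih fun z hz => hL z (by simp [hz]))
  · rintro ⟨n, hn⟩
    induction n generalizing x with
    | zero =>
      refine ⟨[], ?_, by simp⟩
      simpa using hn
    | succ n ih =>
      match x, hn with
      | a :: b :: t, hn =>
        obtain ⟨L, hL1, hL2⟩ := ih t (by simp only [List.length_cons] at hn; omega)
        refine ⟨[a, b] :: L, by simp [hL1], ?_⟩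
        intro y hy
        rcases List.mem_cons.1 hy with rfl | hy
        · exact (mem_two _).2 rfl
        · exact hL2 y hy
      | [a], hn => simp only [List.length_cons, List.length_nil] at hn; omega
      | [], hn => simp only [List.length_nil] at hn; omega

/-- The empty word and all words of odd length. -/
noncomputable def oddR (A : Type) [Fintype A] : RegularExpression A := 1 + anyR A * evenR A

theorem mem_oddR (x : List A) : x ∈ (oddR A).matches' ↔ x = [] ∨ Odd x.length := by
  rw [oddR, matches'_add, Language.mem_add, matches'_epsilon, Language.mem_one, matches'_mul,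
    Language.mem_mul]
  simp only [mem_anyR, mem_evenR]
  refine or_congr Iff.rfl ?_
  constructor
  · rintro ⟨a, ha, b, hb, rfl⟩
    rw [List.length_append, ha, Nat.odd_add]
    simp [hb]
  · intro h
    match x, h with
    | a :: t, h =>
      refine ⟨[a], rfl, t, ?_, rfl⟩
      rw [List.length_cons, Nat.odd_add_one, Nat.not_odd_iff_even] at h
      exact h

/-- The nonempty words. -/
noncomputable def plusR (A : Type) [Fintype A] : RegularExpression A := anyR A * star (anyR A)

theorem mem_plusR (x : List A) : x ∈ (plusR A).matches' ↔ x ≠ [] := by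
  rw [plusR, matches'_mul, Language.mem_mul]
  constructor
  · rintro ⟨a, ha, b, _, rfl⟩ h
    have := (mem_anyR a).1 ha
    rw [List.append_eq_nil_iff] at h
    rw [h.1] at this
    simp at this
  · intro h
    match x, h with
    | a :: t, _ =>
      refine ⟨[a], (mem_anyR _).2 rfl, t, ?_, rfl⟩
      rw [matches'_star, Language.mem_kstar]
      refine ⟨t.map (fun a => [a]), ?_, ?_⟩
      · have : ∀ t : List A, t = (t.map (fun a => [a])).flatten := by
          intro t
          induction t with
          | nil => rfl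
          | cons b t ih => rw [List.map_cons, List.flatten_cons, ← ih]; rfl
        exact this t
      · intro y hy
        obtain ⟨b, -, rfl⟩ := List.mem_map.1 hy
        exact (mem_anyR _).2 rfl

theorem mem_add_one (γ : RegularExpression A) (x : List A) :
    x ∈ (γ + 1).matches' ↔ x ∈ γ.matches' ∨ x = [] := by
  rw [matches'_add, Language.mem_add, matches'_epsilon, Language.mem_one]

end regular

/-! ### The gadgets -/

section gadgets

variable {A V : Type} [Fintype A]

/-- Variables of the parity gadget. -/
inductive P | u1 | du | v1 | dv | q | u2 | eu | v2 | ev | r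

instance : Countable P :=
  ⟨⟨fun | .u1 => 0 | .du => 1 | .v1 => 2 | .dv => 3 | .q => 4 | .u2 => 5 | .eu => 6 | .v2 => 7 | .ev => 8 | .r => 9, by
    intro a b
    cases a <;> cases b <;> simp⟩⟩

/-- The parity gadget. -/
noncomputable def parity (u v : V) : CQ A (V ⊕ P) where
  eqs := [(.inl u, [.inr (.inr .u1), .inr (.inr .du)]), (.inl v, [.inr (.inr .v1), .inr (.inr .dv)]),
    (.inr .q, [.inr (.inr .du), .inr (.inr .dv)]), (.inl u, [.inr (.inr .u2), .inr (.inr .eu)]),
    (.inl v, [.inr (.inr .v2), .inr (.inr .ev)]), (.inr .r, [.inr (.inr .eu), .inr (.inr .ev)])]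
  regs := [(.inr .u1, oddR A), (.inr .v1, oddR A), (.inr .q, optR A), (.inr .u2, evenR A),
    (.inr .v2, evenR A), (.inr .r, optR A)]

/-- The words `x` and `y` are not both of odd length, and they are not both nonempty and of even
length. -/
def Par (x y : List A) : Prop :=
  ¬ (Odd x.length ∧ Odd y.length) ∧
    ¬ (x ≠ [] ∧ Even x.length ∧ y ≠ [] ∧ Even y.length)

theorem split_exists (x : List A) : ∃ x1 d x2 e : List A, x = x1 ++ d ∧ x = x2 ++ e ∧
    (x1 = [] ∨ Odd x1.length) ∧ Even x2.length ∧
    d.length = (if x ≠ [] ∧ Even x.length then 1 else 0) ∧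
    e.length = (if Odd x.length then 1 else 0) := by
  rcases List.eq_nil_or_concat x with rfl | ⟨t, a, rfl⟩
  · exact ⟨[], [], [], [], by simp⟩
  · rw [List.concat_eq_append]
    rcases Nat.even_or_odd t.length with h | h
    · have h2 : Odd (t ++ [a]).length := by
        rw [List.length_append, List.length_singleton, Nat.odd_add_one,
          Nat.not_odd_iff_even]
        exact h
      refine ⟨t ++ [a], [], t, [a], by simp, by simp, Or.inr h2, h, ?_, ?_⟩
      · rw [if_neg]
        · rfl
        · rintro ⟨-, h3⟩
          exact (Nat.not_even_iff_odd.2 h2) h3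
      · rw [if_pos h2]; rfl
    · have h2 : Even (t ++ [a]).length := by
        rw [List.length_append, List.length_singleton, Nat.even_add_one,
          Nat.not_even_iff_odd]
        exact h
      refine ⟨t, [a], t ++ [a], [], by simp, by simp, Or.inr h, h2, ?_, ?_⟩
      · rw [if_pos ⟨by simp, h2⟩]; rfl
      · rw [if_neg (Nat.not_odd_iff_even.2 h2)]; rfl

theorem infix_of_prefix_append {x a b w : List A} (h : x = a ++ b) (hx : x <:+: w) : a <:+: w :=
  ((List.prefix_append a b).isInfix.trans (by rw [← h])).trans hx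

theorem infix_of_suffix_append {x a b w : List A} (h : x = a ++ b) (hx : x <:+: w) : b <:+: w :=
  ((List.suffix_append a b).isInfix.trans (by rw [← h])).trans hx

theorem defRel_par (w u v : V) : DefRel (A := A) w (fun σ => Par (σ u) (σ v)) := by
  refine (DefRel.ex (U₀ := P) (DefRel.sat (Sum.inl w) (parity u v))).congr fun σ hσ => ?_
  simp only [CQ.Sat, parity, List.mem_cons, List.not_mem_nil, or_false, forall_eq_or_imp, forall_eq,
    ext, List.flatMap_cons, List.flatMap_nil, Sum.elim_inr, Sum.elim_inl, List.append_nil,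
    mem_oddR, mem_optR, mem_evenR]
  constructor
  · rintro ⟨τ, -, ⟨h1, h2, h3, h4, h5, h6⟩, g1, g2, g3, g4, g5, g6⟩
    have l1 := congrArg List.length h1
    have l2 := congrArg List.length h2
    have l3 := congrArg List.length h3
    have l4 := congrArg List.length h4
    have l5 := congrArg List.length h5
    have l6 := congrArg List.length h6
    rw [List.length_append] at l1 l2 l3 l4 l5 l6
    refine ⟨?_, ?_⟩
    · rintro ⟨o1, o2⟩
      rw [l4, Nat.odd_add] at o1
      rw [l5, Nat.odd_add] at o2
      have e1 : ¬ Even (τ .eu).length := fun h => Nat.not_odd_iff_even.2 g4 (o1.2 h)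
      have e2 : ¬ Even (τ .ev).length := fun h => Nat.not_odd_iff_even.2 g5 (o2.2 h)
      have e3 : (τ .eu).length ≠ 0 := fun h => e1 (by rw [h]; exact Even.zero)
      have e4 : (τ .ev).length ≠ 0 := fun h => e2 (by rw [h]; exact Even.zero)
      omega
    · rintro ⟨n1, o1, n2, o2⟩
      have m1 : (σ u).length ≠ 0 := fun h => n1 (List.length_eq_zero_iff.1 h)
      have m2 : (σ v).length ≠ 0 := fun h => n2 (List.length_eq_zero_iff.1 h)
      have k1 : (τ .du).length ≠ 0 := by
        intro h
        rcases g1 with g | g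
        · rw [g, h] at l1
          exact m1 l1
        · rw [l1, h, add_zero] at o1
          exact Nat.not_even_iff_odd.2 g o1
      have k2 : (τ .dv).length ≠ 0 := by
        intro h
        rcases g2 with g | g
        · rw [g, h] at l2
          exact m2 l2
        · rw [l2, h, add_zero] at o2
          exact Nat.not_even_iff_odd.2 g o2
      omega
  · rintro ⟨hp1, hp2⟩
    obtain ⟨u1, du, u2, eu, a1, a2, a3, a4, a5, a6⟩ := split_exists (σ u)
    obtain ⟨v1, dv, v2, ev, b1, b2, b3, b4, b5, b6⟩ := split_exists (σ v)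
    have hdu := infix_of_suffix_append a1 (hσ u)
    have hdv := infix_of_suffix_append b1 (hσ v)
    have heu := infix_of_suffix_append a2 (hσ u)
    have hev := infix_of_suffix_append b2 (hσ v)
    have hq : du = [] ∨ dv = [] := by
      by_contra hcon
      push Not at hcon
      have c1 : du.length ≠ 0 := fun h => hcon.1 (List.length_eq_zero_iff.1 h)
      have c2 : dv.length ≠ 0 := fun h => hcon.2 (List.length_eq_zero_iff.1 h)
      rw [a5] at c1
      rw [b5] at c2
      have c3 : σ u ≠ [] ∧ Even (σ u).length := by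
        by_contra h
        rw [if_neg h] at c1
        exact c1 rfl
      have c4 : σ v ≠ [] ∧ Even (σ v).length := by
        by_contra h
        rw [if_neg h] at c2
        exact c2 rfl
      exact hp2 ⟨c3.1, c3.2, c4.1, c4.2⟩
    have hr : eu = [] ∨ ev = [] := by
      by_contra hcon
      push Not at hcon
      have c1 : eu.length ≠ 0 := fun h => hcon.1 (List.length_eq_zero_iff.1 h)
      have c2 : ev.length ≠ 0 := fun h => hcon.2 (List.length_eq_zero_iff.1 h)
      rw [a6] at c1
      rw [b6] at c2
      have c3 : Odd (σ u).length := by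
        by_contra h
        rw [if_neg h] at c1
        exact c1 rfl
      have c4 : Odd (σ v).length := by
        by_contra h
        rw [if_neg h] at c2
        exact c2 rfl
      exact hp1 ⟨c3, c4⟩
    have ldu : du.length ≤ 1 := by rw [a5]; split_ifs <;> omega
    have ldv : dv.length ≤ 1 := by rw [b5]; split_ifs <;> omega
    have leu : eu.length ≤ 1 := by rw [a6]; split_ifs <;> omega
    have lev : ev.length ≤ 1 := by rw [b6]; split_ifs <;> omega
    refine ⟨fun
      | .u1 => u1 | .du => du | .v1 => v1 | .dv => dv | .q => du ++ dv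
      | .u2 => u2 | .eu => eu | .v2 => v2 | .ev => ev | .r => eu ++ ev, ?_,
      ⟨a1, b1, rfl, a2, b2, rfl⟩, a3, b3, ?_, a4, b4, ?_⟩
    · intro x
      cases x
      · exact infix_of_prefix_append a1 (hσ u)
      · exact hdu
      · exact infix_of_prefix_append b1 (hσ v)
      · exact hdv
      · show du ++ dv <:+: σ w
        rcases hq with h | h
        · rw [h]; exact hdv
        · rw [h, List.append_nil]; exact hdu
      · exact infix_of_prefix_append a2 (hσ u)
      · exact heu
      · exact infix_of_prefix_append b2 (hσ v)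
      · exact hev
      · show eu ++ ev <:+: σ w
        rcases hr with h | h
        · rw [h]; exact hev
        · rw [h, List.append_nil]; exact heu
    · show (du ++ dv).length ≤ 1
      rcases hq with h | h
      · rw [h]; exact ldv
      · rw [h, List.append_nil]; exact ldu
    · show (eu ++ ev).length ≤ 1
      rcases hr with h | h
      · rw [h]; exact lev
      · rw [h, List.append_nil]; exact leu

/-- Variables of the gate gadget. -/
inductive G | lam | zeta | rho | alpha | eta | beta | theta

instance : Countable G :=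
  ⟨⟨fun | .lam => 0 | .zeta => 1 | .rho => 2 | .alpha => 3 | .eta => 4 | .beta => 5 | .theta => 6, by
    intro a b
    cases a <;> cases b <;> simp⟩⟩

/-- The gate gadget. -/
noncomputable def gate (w z : V) : CQ A (V ⊕ G) where
  eqs := [(.inl z, [.inr (.inr .lam), .inr (.inr .zeta), .inr (.inr .rho)]),
    (.inl w, [.inr (.inr .alpha), .inr (.inr .eta)]),
    (.inr .eta, [.inr (.inr .zeta), .inr (.inr .beta)]),
    (.inl w, [.inr (.inr .theta), .inr (.inr .beta)]),
    (.inr .theta, [.inr (.inr .alpha), .inr (.inr .zeta)])]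
  regs := [(.inr .zeta, optR A)]

theorem defRel_gate (w z : V) : DefRel (A := A) w (fun σ => σ w = [] ∨ σ z ≠ []) := by
  refine (DefRel.ex (U₀ := G) ((DefRel.sat (Sum.inl w) (gate w z)).and
    ((defRel_par (Sum.inl w) (Sum.inr G.eta) (Sum.inr G.beta)).and
      (defRel_par (Sum.inl w) (Sum.inr G.theta) (Sum.inr G.alpha))))).congr fun σ hσ => ?_
  simp only [CQ.Sat, gate, List.mem_cons, List.not_mem_nil, or_false, forall_eq_or_imp, forall_eq,
    ext, List.flatMap_cons, List.flatMap_nil, Sum.elim_inr, Sum.elim_inl, List.append_nil,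
    mem_optR]
  constructor
  · rintro ⟨τ, -, ⟨⟨h1, h2, h3, h4, h5⟩, -⟩, p1, p2⟩
    by_contra hcon
    push Not at hcon
    obtain ⟨hw, hz⟩ := hcon
    rw [hz] at h1
    have hzeta : τ .zeta = [] := by
      have := h1.symm
      rw [List.append_eq_nil_iff, List.append_eq_nil_iff] at this
      exact this.2.1
    rw [hzeta, List.nil_append] at h3
    rw [hzeta, List.append_nil] at h5
    rw [h3] at p1
    rw [h5] at p2
    have key : ∀ x : List A, Par x x → x = [] := by
      intro x hx
      by_contra hne
      rcases Nat.even_or_odd x.length with h | h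
      · exact hx.2 ⟨hne, h, hne, h⟩
      · exact hx.1 ⟨h, h⟩
    have hb := key _ p1
    have ha := key _ p2
    rw [h3, hb, ha] at h2
    exact hw h2
  · intro h
    by_cases hw : σ w = []
    · refine ⟨fun _ => [], fun u => List.nil_infix, ⟨⟨?_, ?_, ?_, ?_, ?_⟩, ?_⟩, ?_, ?_⟩
      · have := hσ z
        rw [hw, List.infix_nil] at this
        rw [this]; rfl
      · exact hw
      · rfl
      · exact hw
      · rfl
      · simp
      · simp [Par]
      · simp [Par]
    · have hz : σ z ≠ [] := h.resolve_left hw
      obtain ⟨c, rest, hc⟩ := List.exists_cons_of_ne_nil hz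
      obtain ⟨s, t, hst⟩ := hσ z
      rw [hc] at hst
      refine ⟨fun
        | .lam => [] | .zeta => [c] | .rho => rest | .alpha => s | .eta => c :: (rest ++ t)
        | .beta => rest ++ t | .theta => s ++ [c], ?_, ⟨⟨?_, ?_, ?_, ?_, ?_⟩, ?_⟩, ?_, ?_⟩
      · intro x
        cases x
        · exact List.nil_infix
        · exact ⟨s, rest ++ t, by rw [← hst]; simp⟩
        · exact ⟨s ++ [c], t, by rw [← hst]; simp⟩
        · exact ⟨[], c :: (rest ++ t), by rw [← hst]; simp⟩
        · exact ⟨s, [], by rw [← hst]; simp⟩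
        · exact ⟨s ++ [c], [], by rw [← hst]; simp⟩
        · exact ⟨[], rest ++ t, by rw [← hst]; simp⟩
      · rw [hc]; rfl
      · rw [← hst]; simp
      · rfl
      · rw [← hst]; simp
      · rfl
      · simp
      · refine ⟨?_, ?_⟩
        · rintro ⟨o1, o2⟩
          rw [List.length_cons, Nat.odd_add_one] at o1
          exact o1 o2
        · rintro ⟨-, o1, -, o2⟩
          rw [List.length_cons, Nat.even_add_one] at o1
          exact o1 o2
      · refine ⟨?_, ?_⟩
        · rintro ⟨o1, o2⟩
          rw [List.length_append, List.length_singleton, Nat.odd_add_one] at o1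
          exact o1 o2
        · rintro ⟨-, o1, -, o2⟩
          rw [List.length_append, List.length_singleton, Nat.even_add_one] at o1
          exact o1 o2

end gadgets

/-! ### Adding the empty word -/

/-- The language `L` is definable by a query, in terms of `DefRel`. -/
def DefL {A : Type} (L : Set (List A)) : Prop :=
  DefRel (V := Unit) () (fun σ => σ () ∈ L)

section empty

variable {A : Type} [Fintype A]

theorem mem_ext_of_mem {V : Type} (σ : V → List A) (α : List (A ⊕ V)) (a : A)
    (h : Sum.inl a ∈ α) : a ∈ ext σ α :=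
  List.mem_flatMap.2 ⟨_, h, by simp⟩

theorem defL_insert_nil {L : Set (List A)} (h : DefL L) : DefL (L ∪ {[]}) := by
  classical
  obtain ⟨U, hU, φ, hφ⟩ := h
  let emb : Unit ⊕ U → Unit ⊕ (U ⊕ A) := Sum.map id Sum.inl
  let κ : A → Unit ⊕ (U ⊕ A) := fun a => Sum.inr (Sum.inr a)
  let tr : A ⊕ (Unit ⊕ U) → A ⊕ (Unit ⊕ (U ⊕ A)) :=
    Sum.elim (fun a => Sum.inr (κ a)) (fun v => Sum.inr (emb v))
  let ψ : CQ A (Unit ⊕ (U ⊕ A)) :=
    ⟨φ.eqs.map (fun e => (emb e.1, e.2.map tr)),
      φ.regs.map (fun r => (emb r.1, r.2 + 1)) ++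
        (Finset.univ : Finset A).toList.map (fun a => (κ a, char a + 1))⟩
  have hψ : ∀ σ : Unit ⊕ (U ⊕ A) → List A, ψ.Sat σ ↔
      (∀ e ∈ φ.eqs, σ (emb e.1) = ext σ (e.2.map tr)) ∧
      (∀ r ∈ φ.regs, σ (emb r.1) ∈ r.2.matches' ∨ σ (emb r.1) = []) ∧
      (∀ a, σ (κ a) = [a] ∨ σ (κ a) = []) := by
    intro σ
    simp only [CQ.Sat, ψ, List.mem_map, List.mem_append, forall_exists_index, and_imp,
      forall_apply_eq_imp_iff₂, or_imp, forall_and, mem_add_one, matches'_char,
      Finset.mem_toList, Finset.mem_univ]
    simp only [true_implies]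
    rfl
  have hgate : ∀ z, DefRel (A := A) (Sum.inl ())
      (fun σ : Unit ⊕ (U ⊕ A) → List A => σ (Sum.inl ()) = [] ∨ σ z ≠ []) :=
    fun z => defRel_gate (Sum.inl ()) z
  have hR := DefRel.ex (w := ()) (U₀ := U ⊕ A) ((DefRel.sat (Sum.inl ()) ψ).and
    ((DefRel.list (w := Sum.inl ()) φ.eqs fun e _ => DefRel.list e.2 fun s _ =>
        (DefRel.list (Finset.univ : Finset A).toList fun a _ =>
          DefRel.imp (s = Sum.inl a) (hgate (κ a)))).and
      (DefRel.list (w := Sum.inl ()) φ.regs fun r _ =>
        DefRel.imp ([] ∉ r.2.matches') (hgate (emb r.1)))))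
  refine hR.congr fun σ hσ => ?_
  simp only [hψ, Finset.mem_toList, Finset.mem_univ, true_implies, Set.mem_union,
    Set.mem_singleton_iff, Sum.elim_inl]
  constructor
  · rintro ⟨τ, hτ, ⟨h1, h2, h3⟩, h4, h5⟩
    by_cases hw : σ () = []
    · exact Or.inr hw
    · left
      refine (hφ σ hσ).2 ⟨τ ∘ Sum.inl, fun u => hτ _, ?_, ?_⟩
      · intro e he
        have e1 := h1 e he
        have e2 : ext (Sum.elim σ τ) (e.2.map tr) = ext (Sum.elim σ (τ ∘ Sum.inl)) e.2 := by
          unfold ext
          rw [List.flatMap_map]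
          refine List.flatMap_congr fun s hs => ?_
          rcases s with a | v
          · have g1 := (h4 e he _ hs a rfl).resolve_left hw
            have g2 := (h3 a).resolve_right g1
            simpa [tr] using g2
          · rcases v with v | v <;> rfl
        rw [e2] at e1
        rw [← e1]
        rcases e.1 with v | v <;> rfl
      · intro r hr
        have e1 : Sum.elim σ (τ ∘ Sum.inl) r.1 = Sum.elim σ τ (emb r.1) := by
          rcases r.1 with v | v <;> rfl
        rw [e1]
        rcases h2 r hr with g | g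
        · exact g
        · by_cases hn : [] ∈ r.2.matches'
          · rw [g]; exact hn
          · exact absurd g ((h5 r hr hn).resolve_left hw)
  · rintro (h | h)
    · obtain ⟨τ, hτ, hs1, hs2⟩ := (hφ σ hσ).1 h
      refine ⟨Sum.elim τ (fun a => if [a] <:+: σ () then [a] else []), ?_, ⟨?_, ?_, ?_⟩, ?_, ?_⟩
      · rintro (u | a)
        · exact hτ u
        · show (if [a] <:+: σ () then [a] else []) <:+: σ ()
          split_ifs with h
          · exact h
          · exact List.nil_infix
      · intro e he
        have e1 := hs1 e he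
        have e2 : Sum.elim σ (Sum.elim τ (fun a => if [a] <:+: σ () then [a] else []))
            (emb e.1) = Sum.elim σ τ e.1 := by
          rcases e.1 with v | v <;> rfl
        rw [e2, e1]
        unfold ext
        rw [List.flatMap_map]
        refine List.flatMap_congr fun s hs => ?_
        rcases s with a | v
        · have g1 : a ∈ Sum.elim σ τ e.1 := by
            rw [e1]; exact mem_ext_of_mem _ _ _ hs
          have g2 : Sum.elim σ τ e.1 <:+: σ () := by
            rcases e.1 with v | v
            · exact hσ v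
            · exact hτ v
          have g3 : [a] <:+: σ () := by
            obtain ⟨s, t, hst⟩ := List.append_of_mem g1
            exact (List.IsInfix.trans ⟨s, t, by rw [hst]; simp⟩ g2)
          show [a] = (if [a] <:+: σ () then [a] else [])
          rw [if_pos g3]
        · rcases v with v | v <;> rfl
      · intro r hr
        left
        have := hs2 r hr
        have e2 : Sum.elim σ (Sum.elim τ (fun a => if [a] <:+: σ () then [a] else []))
            (emb r.1) = Sum.elim σ τ r.1 := by
          rcases r.1 with v | v <;> rfl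
        rw [e2]
        exact this
      · intro a
        show (if [a] <:+: σ () then [a] else []) = [a] ∨
          (if [a] <:+: σ () then [a] else []) = []
        split_ifs <;> simp
      · intro e he s hs a hsa
        right
        have g1 : a ∈ Sum.elim σ τ e.1 := by
          rw [hs1 e he]; exact mem_ext_of_mem _ _ _ (hsa ▸ hs)
        have g2 : Sum.elim σ τ e.1 <:+: σ () := by
          rcases e.1 with v | v
          · exact hσ v
          · exact hτ v
        have g3 : [a] <:+: σ () := by
          obtain ⟨s, t, hst⟩ := List.append_of_mem g1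
          exact (List.IsInfix.trans ⟨s, t, by rw [hst]; simp⟩ g2)
        show (if [a] <:+: σ () then [a] else []) ≠ []
        rw [if_pos g3]
        simp
      · intro r hr hn
        right
        have e2 : Sum.elim σ (Sum.elim τ (fun a => if [a] <:+: σ () then [a] else []))
            (emb r.1) = Sum.elim σ τ r.1 := by
          rcases r.1 with v | v <;> rfl
        rw [e2]
        intro h0
        have := hs2 r hr
        rw [h0] at this
        exact hn this
    · refine ⟨fun _ => [], fun _ => List.nil_infix, ⟨?_, ?_, ?_⟩, ?_, ?_⟩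
      · intro e _
        have e1 : ∀ v : Unit ⊕ (U ⊕ A), Sum.elim σ (fun _ => []) v = [] := by
          rintro (v | v)
          · exact h
          · rfl
        rw [e1]
        unfold ext
        rw [List.flatMap_map]
        symm
        rw [List.flatMap_eq_nil_iff]
        rintro (a | v) _
        · rfl
        · exact e1 _
      · intro r _
        right
        rcases r.1 with v | v
        · exact h
        · rfl
      · intro a
        exact Or.inr rfl
      · intro e _ s _ a _
        exact Or.inl h
      · intro r _ _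
        exact Or.inl h

end empty

/-! ### Unions -/

section union

variable {A : Type} [Fintype A]

/-- Variables of the union gadget. -/
inductive H | W1 | W2 | w' | d | w1 | w2 | d1 | d2 | p1 | p2

instance : Countable H :=
  ⟨⟨fun | .W1 => 0 | .W2 => 1 | .w' => 2 | .d => 3 | .w1 => 4 | .w2 => 5 | .d1 => 6 | .d2 => 7 | .p1 => 8 | .p2 => 9, by
    intro a b
    cases a <;> cases b <;> simp⟩⟩

/-- The union gadget. -/
noncomputable def unionG (A : Type) [Fintype A] : CQ A (Unit ⊕ H) where
  eqs := [(.inl (), [.inr (.inr .w'), .inr (.inr .d)]),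
    (.inr .w', [.inr (.inr .w1), .inr (.inr .w2)]),
    (.inr .d, [.inr (.inr .d1), .inr (.inr .d2)]),
    (.inr .W1, [.inr (.inr .w1), .inr (.inr .d1)]),
    (.inr .W2, [.inr (.inr .w2), .inr (.inr .d2)]),
    (.inr .p1, [.inr (.inr .w1), .inr (.inr .d2)]),
    (.inr .p2, [.inr (.inr .w2), .inr (.inr .d1)])]
  regs := [(.inr .w', oddR A), (.inr .d, optR A), (.inr .w1, oddR A), (.inr .w2, oddR A),
    (.inr .p1, oddR A), (.inr .p2, oddR A)]

theorem unionG_sound (σ : Unit ⊕ H → List A) (h : (unionG A).Sat σ) :
    σ (.inr .W1) = σ (.inl ()) ∨ σ (.inr .W2) = σ (.inl ()) := by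
  simp only [CQ.Sat, unionG, List.mem_cons, List.not_mem_nil, or_false, forall_eq_or_imp,
    forall_eq, ext, List.flatMap_cons, List.flatMap_nil, Sum.elim_inr, List.append_nil,
    mem_oddR, mem_optR] at h
  obtain ⟨⟨h1, h2, h3, h4, h5, h6, h7⟩, g1, g2, g3, g4, g5, g6⟩ := h
  have l2 := congrArg List.length h2
  have l3 := congrArg List.length h3
  have l6 := congrArg List.length h6
  have l7 := congrArg List.length h7
  rw [List.length_append] at l2 l3 l6 l7
  have c1 : σ (.inr .w1) = [] ∨ σ (.inr .w2) = [] := by
    by_contra hcon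
    push Not at hcon
    have o1 := g3.resolve_left hcon.1
    have o2 := g4.resolve_left hcon.2
    have e1 : Even (σ (.inr .w')).length := by rw [l2]; exact o1.add_odd o2
    rcases g1 with g | g
    · rw [h2, List.append_eq_nil_iff] at g
      exact hcon.1 g.1
    · exact Nat.not_even_iff_odd.2 g e1
  have c2 : σ (.inr .d1) = [] ∨ σ (.inr .d2) = [] := by
    by_contra hcon
    push Not at hcon
    have o1 : (σ (.inr .d1)).length ≠ 0 := fun h => hcon.1 (List.length_eq_zero_iff.1 h)
    have o2 : (σ (.inr .d2)).length ≠ 0 := fun h => hcon.2 (List.length_eq_zero_iff.1 h)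
    omega
  -- the condition on `p1`, `p2`
  have key : ∀ x y p : List A, p.length = x.length + y.length → (p = [] ∨ Odd p.length) →
      (x = [] ∨ Odd x.length) → y.length ≤ 1 → x ≠ [] → y = [] := by
    intro x y p hl hp hx hy hne
    have ox := hx.resolve_left hne
    rcases Nat.eq_zero_or_pos y.length with h0 | h0
    · exact List.length_eq_zero_iff.1 h0
    · exfalso
      have h1 : y.length = 1 := by omega
      have e1 : Even p.length := by rw [hl, h1]; exact ox.add_odd odd_one
      rcases hp with g | g
      · rw [g] at hl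
        simp only [List.length_nil] at hl
        omega
      · exact Nat.not_even_iff_odd.2 g e1
  by_cases hw1 : σ (.inr .w1) = []
  · by_cases hw2 : σ (.inr .w2) = []
    · rw [hw1, hw2] at h2
      rw [h2] at h1
      rw [hw1] at h4
      rw [hw2] at h5
      rw [h1, h4, h5, h3]
      rcases c2 with c | c <;> simp [c]
    · right
      have hd1 := key _ _ _ l7 g6 g4 (by omega) hw2
      rw [h1, h2, h3, h5, hw1, hd1]
      simp
  · left
    have hw2 := c1.resolve_left hw1
    have hd2 := key _ _ _ l6 g5 g3 (by omega) hw1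
    rw [h1, h2, h3, h4, hw2, hd2]
    simp

theorem unionG_split (x : List A) : ∃ y d : List A, x = y ++ d ∧ (y = [] ∨ Odd y.length) ∧
    d.length ≤ 1 := by
  obtain ⟨x1, d, -, -, h1, -, h2, -, h3, -⟩ := split_exists x
  refine ⟨x1, d, h1, h2, ?_⟩
  rw [h3]
  split_ifs <;> omega

theorem odd_of_le_one (d : List A) (h : d.length ≤ 1) : d = [] ∨ Odd d.length := by
  rcases Nat.eq_zero_or_pos d.length with h0 | h0
  · exact Or.inl (List.length_eq_zero_iff.1 h0)
  · right
    have : d.length = 1 := by omega
    rw [this]
    exact odd_one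

theorem unionG_complete (x : List A) (b : Bool) : ∃ τ : H → List A,
    (∀ u, τ u <:+: x) ∧ (unionG A).Sat (Sum.elim (fun _ => x) τ) ∧
    τ .W1 = (if b then x else []) ∧ τ .W2 = (if b then [] else x) := by
  obtain ⟨y, d, h1, h2, h3⟩ := unionG_split x
  have hy : y <:+: x := infix_of_prefix_append h1 List.infix_rfl
  have hd : d <:+: x := infix_of_suffix_append h1 List.infix_rfl
  simp only [CQ.Sat, unionG, List.mem_cons, List.not_mem_nil, or_false, forall_eq_or_imp,
    forall_eq, ext, List.flatMap_cons, List.flatMap_nil, Sum.elim_inr, Sum.elim_inl,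
    List.append_nil, mem_oddR, mem_optR]
  cases b
  · refine ⟨fun
      | .W1 => [] | .W2 => x | .w' => y | .d => d | .w1 => [] | .w2 => y | .d1 => [] | .d2 => d
      | .p1 => d | .p2 => y, ?_, ⟨⟨h1, rfl, rfl, rfl, h1, rfl, ?_⟩, h2, h3, Or.inl rfl, h2,
        odd_of_le_one d h3, h2⟩, rfl, rfl⟩
    · intro u
      cases u
      all_goals first
        | exact List.nil_infix
        | exact hy
        | exact hd
        | exact List.infix_rfl
    · simp
  · refine ⟨fun
      | .W1 => x | .W2 => [] | .w' => y | .d => d | .w1 => y | .w2 => [] | .d1 => d | .d2 => []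
      | .p1 => y | .p2 => d, ?_, ⟨⟨h1, ?_, ?_, h1, rfl, ?_, rfl⟩, h2, h3, h2, Or.inl rfl,
        h2, odd_of_le_one d h3⟩, rfl, rfl⟩
    · intro u
      cases u
      all_goals first
        | exact List.nil_infix
        | exact hy
        | exact hd
        | exact List.infix_rfl
    · simp
    · simp
    · simp

theorem defL_union_nil {L₁ L₂ : Set (List A)} (h₁ : DefL L₁) (h₂ : DefL L₂) (n₁ : [] ∈ L₁)
    (n₂ : [] ∈ L₂) : DefL (L₁ ∪ L₂) := by
  obtain ⟨U₁, hU₁, φ₁, hφ₁⟩ := h₁
  obtain ⟨U₂, hU₂, φ₂, hφ₂⟩ := h₂
  let f₁ : Unit ⊕ U₁ → Unit ⊕ (H ⊕ (U₁ ⊕ U₂)) :=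
    Sum.elim (fun _ => .inr (.inl .W1)) (fun u => .inr (.inr (.inl u)))
  let f₂ : Unit ⊕ U₂ → Unit ⊕ (H ⊕ (U₁ ⊕ U₂)) :=
    Sum.elim (fun _ => .inr (.inl .W2)) (fun u => .inr (.inr (.inr u)))
  let f₀ : Unit ⊕ H → Unit ⊕ (H ⊕ (U₁ ⊕ U₂)) := Sum.map id Sum.inl
  have hnil : ∀ {U : Type} (φ : CQ A (Unit ⊕ U)) (L : Set (List A)),
      (∀ σ : Unit → List A, Safe () σ →
        (σ () ∈ L ↔ ∃ τ : U → List A, (∀ u, τ u <:+: σ ()) ∧ φ.Sat (Sum.elim σ τ))) →
      [] ∈ L → φ.Sat (fun _ => []) := by
    intro U φ L hφ hn
    obtain ⟨τ, hτ, hs⟩ := (hφ (fun _ => []) (fun _ => List.infix_rfl)).1 hn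
    have : (fun _ => [] : Unit ⊕ U → List A) = Sum.elim (fun _ => []) τ := by
      funext x
      rcases x with x | x
      · rfl
      · exact (List.infix_nil.1 (hτ x)).symm
    rw [this]
    exact hs
  refine ⟨H ⊕ (U₁ ⊕ U₂), inferInstance,
    ((unionG A).map f₀).conj ((φ₁.map f₁).conj (φ₂.map f₂)), fun σ hσ => ?_⟩
  simp only [sat_conj, sat_map]
  constructor
  · rintro (h | h)
    · obtain ⟨τ₁, hτ₁, hs₁⟩ := (hφ₁ σ hσ).1 h
      obtain ⟨τ, hτ, hs, e1, e2⟩ := unionG_complete (σ ()) true
      refine ⟨Sum.elim τ (Sum.elim τ₁ (fun _ => [])), ?_, ?_, ?_, ?_⟩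
      · rintro (u | u | u)
        · exact hτ u
        · exact hτ₁ u
        · exact List.nil_infix
      · convert hs using 1
        funext x
        rcases x with x | x <;> rfl
      · convert hs₁ using 1
        funext x
        rcases x with x | x
        · exact e1
        · rfl
      · convert hnil φ₂ L₂ hφ₂ n₂ using 1
        funext x
        rcases x with x | x
        · exact e2
        · rfl
    · obtain ⟨τ₂, hτ₂, hs₂⟩ := (hφ₂ σ hσ).1 h
      obtain ⟨τ, hτ, hs, e1, e2⟩ := unionG_complete (σ ()) false
      refine ⟨Sum.elim τ (Sum.elim (fun _ => []) τ₂), ?_, ?_, ?_, ?_⟩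
      · rintro (u | u | u)
        · exact hτ u
        · exact List.nil_infix
        · exact hτ₂ u
      · convert hs using 1
        funext x
        rcases x with x | x <;> rfl
      · convert hnil φ₁ L₁ hφ₁ n₁ using 1
        funext x
        rcases x with x | x
        · exact e1
        · rfl
      · convert hs₂ using 1
        funext x
        rcases x with x | x
        · exact e2
        · rfl
  · rintro ⟨τ, hτ, hs, hs₁, hs₂⟩
    have hcase := unionG_sound _ hs
    rcases hcase with h | h
    · left
      refine (hφ₁ σ hσ).2 ⟨fun u => τ (.inr (.inl u)), fun u => hτ _, ?_⟩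
      convert hs₁ using 1
      funext x
      rcases x with x | x
      · exact h.symm
      · rfl
    · right
      refine (hφ₂ σ hσ).2 ⟨fun u => τ (.inr (.inr u)), fun u => hτ _, ?_⟩
      convert hs₂ using 1
      funext x
      rcases x with x | x
      · exact h.symm
      · rfl

theorem defL_union {L₁ L₂ : Set (List A)} (h₁ : DefL L₁) (h₂ : DefL L₂) : DefL (L₁ ∪ L₂) := by
  have h := defL_union_nil (defL_insert_nil h₁) (defL_insert_nil h₂) (by simp) (by simp)
  by_cases hn : [] ∈ L₁ ∪ L₂
  · have : L₁ ∪ {[]} ∪ (L₂ ∪ {[]}) = L₁ ∪ L₂ := by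
      ext x
      simp only [Set.mem_union, Set.mem_singleton_iff]
      constructor
      · rintro ((h | rfl) | (h | rfl))
        · exact Or.inl h
        · exact hn
        · exact Or.inr h
        · exact hn
      · rintro (h | h)
        · exact Or.inl (Or.inl h)
        · exact Or.inr (Or.inl h)
    rwa [this] at h
  · have h' : DefL (A := A) {x | x ≠ []} := by
      refine (DefRel.sat (A := A) () ⟨[], [((), plusR A)]⟩).congr fun σ _ => ?_
      simp only [CQ.Sat, List.not_mem_nil, false_implies, implies_true, List.mem_cons, or_false,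
        forall_eq, true_and, mem_plusR]
      exact Iff.rfl
    refine (DefRel.and h h').congr fun σ _ => ?_
    simp only [Set.mem_union, Set.mem_singleton_iff]
    constructor
    · rintro ⟨h1, h2⟩
      have h2' : σ () ≠ [] := h2
      rcases h1 with (h | h) | (h | h)
      · exact Or.inl h
      · exact absurd h h2'
      · exact Or.inr h
      · exact absurd h h2'
    · intro h1
      refine ⟨?_, ?_⟩
      · rcases h1 with h | h
        · exact Or.inl (Or.inl h)
        · exact Or.inr (Or.inl h)
      · intro h2
        apply hn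
        rw [← h2]
        exact h1

end union

/-! ### Back to queries with variables in `ℕ` -/

theorem defL_lang {A : Type} (φ : CQ A ℕ) : DefL φ.lang := by
  refine ⟨ℕ, inferInstance, φ.map (fun n => if n = 0 then Sum.inl () else Sum.inr n),
    fun σ _ => ?_⟩
  rw [show (∃ τ : ℕ → List A, (∀ u, τ u <:+: σ ()) ∧
    (φ.map (fun n => if n = 0 then Sum.inl () else Sum.inr n)).Sat (Sum.elim σ τ)) ↔
    ∃ τ : ℕ → List A, (∀ u, τ u <:+: σ ()) ∧
    φ.Sat (Sum.elim σ τ ∘ (fun n => if n = 0 then Sum.inl () else Sum.inr n)) by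
      simp only [sat_map]]
  constructor
  · rintro ⟨ρ, h1, h2, h3⟩
    refine ⟨ρ, fun u => by rw [← h3]; exact h1 u, ?_⟩
    convert h2 using 1
    funext n
    by_cases hn : n = 0
    · subst hn
      exact h3.symm
    · simp [hn]
  · rintro ⟨τ, h1, h2⟩
    refine ⟨_, ?_, h2, rfl⟩
    intro n
    by_cases hn : n = 0
    · subst hn
      exact List.infix_rfl
    · simp only [Function.comp_apply, hn, if_false, Sum.elim_inr, if_true, Sum.elim_inl]
      exact h1 n

theorem lang_of_defL {A : Type} {L : Set (List A)} (h : DefL L) : ∃ φ : CQ A ℕ, φ.lang = L := by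
  obtain ⟨U, hU, φ, hφ⟩ := h
  obtain ⟨g, hg⟩ := hU.exists_injective_nat
  let f : Unit ⊕ U → ℕ := Sum.elim (fun _ => 0) (fun u => g u + 1)
  have hf : Function.Injective f := by
    rintro (x | x) (y | y) h
    · rfl
    · simp [f] at h
    · simp [f] at h
    · simp only [f, Sum.elim_inr, add_left_inj] at h
      rw [hg h]
  refine ⟨φ.map f, ?_⟩
  ext u
  constructor
  · rintro ⟨σ, h1, h2, rfl⟩
    rw [sat_map] at h2
    have hs : Safe (A := A) () (fun _ => σ 0) := fun _ => List.infix_rfl
    refine (hφ (fun _ => σ 0) hs).2 ⟨fun u => σ (f (Sum.inr u)), fun u => h1 _, ?_⟩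
    convert h2 using 1
    funext x
    rcases x with x | x <;> rfl
  · intro hu
    have hs : Safe (A := A) () (fun _ => u) := fun _ => List.infix_rfl
    obtain ⟨τ, h1, h2⟩ := (hφ (fun _ => u) hs).1 hu
    have h0 : Function.extend f (Sum.elim (fun _ => u) τ) (fun _ => []) 0 = u :=
      hf.extend_apply (Sum.elim (fun _ => u) τ) (fun _ => []) (Sum.inl ())
    refine ⟨Function.extend f (Sum.elim (fun _ => u) τ) (fun _ => []), ?_, ?_, h0⟩
    · intro n
      rw [h0]
      by_cases hn : ∃ x, f x = n
      · obtain ⟨x, rfl⟩ := hn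
        rw [hf.extend_apply]
        rcases x with x | x
        · exact List.infix_rfl
        · exact h1 x
      · rw [Function.extend_apply' _ _ _ hn]
        exact List.nil_infix
    · rw [sat_map, Function.extend_comp hf]
      exact h2

/-- Q1: over a finite alphabet, the union of the languages of two `FC[REG]`-conjunctive queries
is the language of an `FC[REG]`-conjunctive query, and the class of the languages of
`FC[REG]`-conjunctive queries is equal to the class of the languages of finite (nonempty)
disjunctions of such queries. -/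
theorem result (A : Type) [Fintype A] :
    (∀ φ₁ φ₂ : CQ A ℕ, ∃ φ : CQ A ℕ, φ.lang = φ₁.lang ∪ φ₂.lang) ∧
      {L : Set (List A) | ∃ φ : CQ A ℕ, φ.lang = L} =
        {L : Set (List A) | ∃ Φ : List (CQ A ℕ), Φ ≠ [] ∧ ucqLang Φ = L} := by
  have h : ∀ φ₁ φ₂ : CQ A ℕ, ∃ φ : CQ A ℕ, φ.lang = φ₁.lang ∪ φ₂.lang := fun φ₁ φ₂ =>
    lang_of_defL (defL_union (defL_lang φ₁) (defL_lang φ₂))
  refine ⟨h, ?_⟩
  ext L
  constructor
  · rintro ⟨φ, rfl⟩
    refine ⟨[φ], by simp, ?_⟩
    ext u
    simp [ucqLang]
  · rintro ⟨Φ, hΦ, rfl⟩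
    induction Φ with
    | nil => exact absurd rfl hΦ
    | cons φ Φ ih =>
      by_cases hΦ' : Φ = []
      · subst hΦ'
        refine ⟨φ, ?_⟩
        ext u
        simp [ucqLang]
      · obtain ⟨ψ, hψ⟩ := ih hΦ'
        obtain ⟨χ, hχ⟩ := h φ ψ
        refine ⟨χ, ?_⟩
        rw [hχ, hψ]
        ext u
        simp [ucqLang]

end Pool.Agent.Results.MP_c07d1e_lc.UnionClosed
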